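import Pool.Agent.H85.MG.Tr

/-!
# Moderate measures are Monge-Ampère measures of Hölder continuous potentials

`X` is a compact connected Kähler manifold of dimension `n ≥ 1`, given by the structure
`KMA.KM n X` (finite holomorphic atlas with smooth strictly plurisubharmonic local potentials of
the Kähler form `ω`).  If the Borel probability measure `μ` satisfies
`exp (- ε PSH (X, ω)) ⊂ L^1 (μ)` for some `ε > 0`, then `μ = V⁻¹ (ω + dd^c φ)^n` for a Hölder
continuous `ω`-plurisubharmonic function `φ`.
-/

open MeasureTheory KMA

namespace Pool.Agent.Results.MP_0df3a3_an.HolderPotential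

theorem result {n : ℕ} (hn : 1 ≤ n) {X : Type} [TopologicalSpace X] [T2Space X] [CompactSpace X]
    [ConnectedSpace X] [MeasurableSpace X] [BorelSpace X] (K : KM n X) (μ : Measure X)
    [IsProbabilityMeasure μ] (h : KModerate K μ) :
    ∃ φ : X → ℝ, HolPsh K φ ∧ IsMA K φ μ :=
  KMA.main K hn μ h

end Pool.Agent.Results.MP_0df3a3_an.HolderPotential
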